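import Mathlib

set_option autoImplicit false

namespace Pool.Agent.Results.MP_3821a3_co.CharacteristicZero

open MvPolynomial

universe u

/-- A finite hypergraph on the vertex type `V`, with edges indexed by `ι` (so repeated edges are
possible); every edge is a set of at least two vertices. -/
structure Hypergraph (V ι : Type) where
  /-- the edge with index `i` -/
  edge : ι → Finset V
  /-- every edge has at least two vertices -/
  two_le : ∀ i, 2 ≤ (edge i).card

section defs

variable {V ι : Type} [Fintype V] [DecidableEq V] [Fintype ι] {F : Type u} [Field F]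

/-- The edges (with multiplicity) contained in `X`. -/
def Hypergraph.edgesIn (H : Hypergraph V ι) (X : Finset V) : Finset ι :=
  Finset.univ.filter (fun i => H.edge i ⊆ X)

/-- The edge density `max_X |E(X)| / |X|` over nonempty vertex sets `X`. -/
noncomputable def Hypergraph.edgeDensity (H : Hypergraph V ι) : ℝ :=
  sSup {x : ℝ | ∃ X : Finset V, X.Nonempty ∧ x = ((H.edgesIn X).card : ℝ) / (X.card : ℝ)}

/-- The hypergraph polynomial with coefficients `a`. -/
noncomputable def Hypergraph.poly (H : Hypergraph V ι) (a : ι → V → F) : MvPolynomial V F :=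
  ∏ i, ∑ v ∈ H.edge i, C (a i v) * X v

/-- The coefficients are nonzero on the edges. -/
def Hypergraph.IsCoeff (H : Hypergraph V ι) (a : ι → V → F) : Prop :=
  ∀ i, ∀ v ∈ H.edge i, a i v ≠ 0

/-- The set `S(p)` of exponent vectors of top degree with nonzero coefficient. -/
noncomputable def topSupport (p : MvPolynomial V F) : Finset (V →₀ ℕ) :=
  p.support.filter (fun α => (α.sum fun _ k => k) = p.totalDegree)

/-- The Alon-Tarsi number: the minimum over `α ∈ S(p)` of the largest entry of `α`, plus one. -/
noncomputable def alonTarsi (p : MvPolynomial V F) : ℕ :=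
  sInf {k : ℕ | ∃ α ∈ topSupport p, k = (Finset.univ.sup fun v => α v) + 1}

end defs

section operators

variable {V : Type} [Fintype V] [DecidableEq V] {F : Type u} [Field F]

/-- The ideal of the polynomials all of whose monomials have an exponent at least `t`. -/
noncomputable def powIdeal (V : Type) (F : Type u) [Field F] (t : ℕ) :
    Ideal (MvPolynomial V F) :=
  Ideal.span ((fun s => monomial s (1 : F)) '' (Set.range fun v : V => Finsupp.single v t))

omit [Fintype V] [DecidableEq V] in
lemma mem_powIdeal (t : ℕ) (p : MvPolynomial V F) :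
    p ∈ powIdeal V F t ↔ ∀ α ∈ p.support, ∃ v, t ≤ α v := by
  rw [powIdeal, mem_ideal_span_monomial_image]
  constructor
  · intro h α hα
    obtain ⟨s, ⟨v, rfl⟩, hs⟩ := h α hα
    exact ⟨v, by simpa using hs v⟩
  · intro h α hα
    obtain ⟨v, hv⟩ := h α hα
    exact ⟨_, ⟨v, rfl⟩, by simpa using hv⟩

omit [Fintype V] [DecidableEq V] in
lemma monomial_mem (t : ℕ) (α : V →₀ ℕ) (c : F) (h : c = 0 ∨ ∃ v, t ≤ α v) :
    monomial α c ∈ powIdeal V F t := by
  rcases h with rfl | ⟨v, hv⟩
  · simp
  · rw [mem_powIdeal]
    intro β hβ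
    have h1 : β = α := by
      have := MvPolynomial.support_monomial_subset hβ
      simpa using this
    exact ⟨v, h1 ▸ hv⟩

/-- The linear map with given action on the monomials. -/
noncomputable def ofMon (f : (V →₀ ℕ) → MvPolynomial V F) :
    MvPolynomial V F →ₗ[F] MvPolynomial V F :=
  (MvPolynomial.basisMonomials V F).constr F f

omit [Fintype V] [DecidableEq V] in
lemma ofMon_monomial (f : (V →₀ ℕ) → MvPolynomial V F) (α : V →₀ ℕ) (c : F) :
    ofMon f (monomial α c) = c • f α := by
  have h1 : monomial α c = c • (MvPolynomial.basisMonomials V F) α := by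
    simp [smul_monomial]
  rw [h1, map_smul, ofMon, Module.Basis.constr_basis]

omit [Fintype V] [DecidableEq V] in
lemma ofMon_mem (t : ℕ) (f : (V →₀ ℕ) → MvPolynomial V F)
    (h : ∀ α, (∃ v, t ≤ α v) → f α ∈ powIdeal V F t) (p : MvPolynomial V F)
    (hp : p ∈ powIdeal V F t) : ofMon f p ∈ powIdeal V F t := by
  rw [p.as_sum, map_sum]
  refine Ideal.sum_mem _ fun α hα => ?_
  rw [ofMon_monomial]
  exact Submodule.smul_of_tower_mem _ _ (h α ((mem_powIdeal t p).1 hp α hα))

omit [Fintype V] [DecidableEq V] in
lemma lin_ext {L M : MvPolynomial V F →ₗ[F] MvPolynomial V F}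
    (h : ∀ α, L (monomial α 1) = M (monomial α 1)) : L = M := by
  refine (MvPolynomial.basisMonomials V F).ext fun α => ?_
  simpa using h α

/-- degree in the variables of `e` -/
def dg (e : Finset V) (α : V →₀ ℕ) : ℕ := ∑ v ∈ e, α v

/-- the part of degree `j` in the variables of `e` -/
noncomputable def part (e : Finset V) (j : ℕ) : MvPolynomial V F →ₗ[F] MvPolynomial V F :=
  ofMon fun α => if dg e α = j then monomial α 1 else 0

/-- the lowering operator of the variable `v` -/
noncomputable def low (t : ℕ) (v : V) : MvPolynomial V F →ₗ[F] MvPolynomial V F :=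
  ofMon fun α => ((α v : F) * ((t : F) - α v)) • monomial (α - Finsupp.single v 1) 1

/-- the lowering operator of the edge `e` -/
noncomputable def Low (t : ℕ) (e : Finset V) (c : V → F) :
    MvPolynomial V F →ₗ[F] MvPolynomial V F :=
  ∑ v ∈ e, (c v)⁻¹ • low t v

/-- the linear form -/
noncomputable def form (e : Finset V) (c : V → F) : MvPolynomial V F :=
  ∑ v ∈ e, C (c v) * X v

omit [Fintype V] in
lemma low_monomial (t : ℕ) (v : V) (α : V →₀ ℕ) (b : F) :
    low t v (monomial α b)
      = monomial (α - Finsupp.single v 1) (b * ((α v : F) * ((t : F) - α v))) := by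
  rw [low, ofMon_monomial, smul_smul, smul_monomial, smul_eq_mul, mul_one]

omit [Fintype V] in
lemma low_mem (t : ℕ) (v : V) (p : MvPolynomial V F) (hp : p ∈ powIdeal V F t) :
    low t v p ∈ powIdeal V F t := by
  refine ofMon_mem t _ ?_ p hp
  rintro α ⟨w, hw⟩
  rw [smul_monomial]
  apply monomial_mem
  by_cases hvw : w = v
  · subst hvw
    rcases hw.eq_or_lt with h | h
    · left
      rw [← h]
      simp
    · right
      refine ⟨w, ?_⟩
      simp
      omega
  · right
    refine ⟨w, ?_⟩
    simp [Finsupp.single_apply, Ne.symm hvw]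
    exact hw

omit [Fintype V] in
lemma Low_mem (t : ℕ) (e : Finset V) (c : V → F) (p : MvPolynomial V F)
    (hp : p ∈ powIdeal V F t) : Low t e c p ∈ powIdeal V F t := by
  rw [Low, LinearMap.sum_apply]
  refine Ideal.sum_mem _ fun v _ => ?_
  rw [LinearMap.smul_apply]
  exact Submodule.smul_of_tower_mem _ _ (low_mem t v p hp)

omit [Fintype V] in
lemma low_X_ne (t : ℕ) (v w : V) (h : w ≠ v) (α : V →₀ ℕ) :
    low t v (X w * monomial α (1 : F)) = X w * low t v (monomial α 1) := by
  rw [X, monomial_mul, low_monomial, low_monomial, monomial_mul]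
  have h1 : (Finsupp.single w 1 + α) - Finsupp.single v 1
      = Finsupp.single w 1 + (α - Finsupp.single v 1) := by
    ext x
    simp only [Finsupp.coe_tsub, Finsupp.coe_add, Pi.sub_apply, Pi.add_apply,
      Finsupp.single_apply]
    by_cases hx : w = x
    · subst hx
      simp [Ne.symm h]
    · simp [hx]
  have h2 : (Finsupp.single w 1 + α : V →₀ ℕ) v = α v := by
    simp [Finsupp.single_apply, h]
  rw [h1, h2, mul_assoc]

omit [Fintype V] in
lemma low_X_eq (t : ℕ) (v : V) (α : V →₀ ℕ) :
    low t v (X v * monomial α (1 : F)) = X v * low t v (monomial α 1)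
      + monomial α ((t : F) - 1 - 2 * α v) := by
  rw [X, monomial_mul, low_monomial, low_monomial, monomial_mul]
  have h1 : (Finsupp.single v 1 + α) - Finsupp.single v 1 = α := by
    ext x
    simp
  have h2 : (Finsupp.single v 1 + α : V →₀ ℕ) v = α v + 1 := by
    simp [add_comm]
  rw [h1, h2]
  rcases Nat.eq_zero_or_pos (α v) with h0 | hpos
  · rw [h0]
    simp
  · have h3 : Finsupp.single v 1 + (α - Finsupp.single v 1) = α := by
      ext x
      simp only [Finsupp.coe_tsub, Finsupp.coe_add, Pi.sub_apply, Pi.add_apply,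
        Finsupp.single_apply]
      by_cases hx : v = x
      · subst hx
        simp
        omega
      · simp [hx]
    rw [h3, ← map_add]
    congr 1
    push_cast
    ring


omit [Fintype V] in
lemma low_form (t : ℕ) (e : Finset V) (c : V → F) (v : V) (hv : v ∈ e) (α : V →₀ ℕ) :
    low t v (form e c * monomial α (1 : F)) = form e c * low t v (monomial α 1)
      + c v • monomial α ((t : F) - 1 - 2 * α v) := by
  have h1 : ∀ q : MvPolynomial V F, form e c * q = ∑ w ∈ e, c w • (X w * q) := by
    intro q
    rw [form, Finset.sum_mul]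
    refine Finset.sum_congr rfl fun w _ => ?_
    rw [mul_assoc, C_mul']
  rw [h1, h1, map_sum]
  have h2 : ∀ w ∈ e, low t v (c w • (X w * monomial α (1 : F)))
      = c w • (X w * low t v (monomial α 1))
        + (if w = v then c v • monomial α ((t : F) - 1 - 2 * α v) else 0) := by
    intro w _
    rw [map_smul]
    split_ifs with h
    · subst h
      rw [low_X_eq, smul_add]
    · rw [low_X_ne t v w h, add_zero]
  rw [Finset.sum_congr rfl h2, Finset.sum_add_distrib, Finset.sum_ite_eq' e v, if_pos hv]

omit [Fintype V] in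
lemma Low_form (N : ℕ) (e : Finset V) (c : V → F) (hc : ∀ v ∈ e, c v ≠ 0) (α : V →₀ ℕ) :
    Low (N + 1) e c (form e c * monomial α (1 : F)) = form e c * Low (N + 1) e c (monomial α 1)
      + ((e.card : F) * N - 2 * dg e α) • monomial α 1 := by
  rw [Low, LinearMap.sum_apply, LinearMap.sum_apply, Finset.mul_sum]
  have h2 : ∀ v ∈ e, ((c v)⁻¹ • low (N + 1) v) (form e c * monomial α (1 : F))
      = form e c * ((c v)⁻¹ • low (N + 1) v) (monomial α 1)
        + ((N : F) - 2 * α v) • monomial α 1 := by
    intro v hv
    rw [LinearMap.smul_apply, LinearMap.smul_apply, low_form _ _ _ _ hv, smul_add, smul_smul,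
      inv_mul_cancel₀ (hc v hv), one_smul, mul_smul_comm]
    congr 1
    rw [smul_monomial, smul_eq_mul, mul_one]
    congr 1
    push_cast
    ring
  rw [Finset.sum_congr rfl h2, Finset.sum_add_distrib, ← Finset.sum_smul]
  congr 2
  rw [Finset.sum_sub_distrib, Finset.sum_const, nsmul_eq_mul, dg, Nat.cast_sum, Finset.mul_sum]

omit [Fintype V] in
lemma part_monomial (e : Finset V) (j : ℕ) (α : V →₀ ℕ) (b : F) :
    part e j (monomial α b) = if dg e α = j then monomial α b else 0 := by
  rw [part, ofMon_monomial]
  split_ifs with h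
  · rw [smul_monomial, smul_eq_mul, mul_one]
  · simp

omit [Fintype V] in
lemma dg_sub (e : Finset V) (v : V) (hv : v ∈ e) (α : V →₀ ℕ) (h : 1 ≤ α v) :
    dg e (α - Finsupp.single v 1) + 1 = dg e α := by
  rw [dg, dg, ← Finset.sum_erase_add _ _ hv, ← Finset.sum_erase_add (a := v) e (fun x => α x) hv]
  have h1 : ∑ x ∈ e.erase v, (α - Finsupp.single v 1 : V →₀ ℕ) x = ∑ x ∈ e.erase v, α x := by
    refine Finset.sum_congr rfl fun x hx => ?_
    have : x ≠ v := Finset.ne_of_mem_erase hx
    simp [Finsupp.single_apply, Ne.symm this]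
  rw [h1]
  simp
  omega

omit [Fintype V] in
lemma dg_add (e : Finset V) (v : V) (α : V →₀ ℕ) :
    dg e (Finsupp.single v 1 + α) = (if v ∈ e then 1 else 0) + dg e α := by
  rw [dg, dg]
  simp only [Finsupp.coe_add, Pi.add_apply, Finset.sum_add_distrib]
  congr 1
  simp only [Finsupp.single_apply]
  rw [Finset.sum_ite_eq]

omit [Fintype V] in
lemma low_zero (t : ℕ) (v : V) (α : V →₀ ℕ) (b : F) (h : α v = 0) :
    low t v (monomial α b) = 0 := by
  rw [low_monomial, h]
  simp

omit [Fintype V] in
lemma part_Low (t : ℕ) (e : Finset V) (c : V → F) (j : ℕ) (p : MvPolynomial V F) :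
    part e j (Low t e c (part e (j + 1) p)) = Low t e c (part e (j + 1) p) := by
  have h : (part e j ∘ₗ Low t e c ∘ₗ part e (j + 1)) = (Low t e c ∘ₗ part e (j + 1)) := by
    apply lin_ext (F := F)
    intro α
    simp only [LinearMap.comp_apply]
    rw [part_monomial]
    split_ifs with h
    · rw [Low, LinearMap.sum_apply, map_sum]
      refine Finset.sum_congr rfl fun v hv => ?_
      rw [LinearMap.smul_apply, map_smul]
      congr 1
      by_cases h0 : α v = 0
      · rw [low_zero _ _ _ _ h0, map_zero]
      · rw [low_monomial, part_monomial, if_pos]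
        have := dg_sub e v hv α (by omega)
        omega
    · simp
  exact LinearMap.congr_fun h p

omit [Fintype V] in
lemma Low_part_zero (t : ℕ) (e : Finset V) (c : V → F) (p : MvPolynomial V F) :
    Low t e c (part e 0 p) = 0 := by
  have h : (Low t e c ∘ₗ part e 0) = 0 := by
    apply lin_ext (F := F)
    intro α
    simp only [LinearMap.comp_apply, LinearMap.zero_apply]
    rw [part_monomial]
    split_ifs with h
    · rw [Low, LinearMap.sum_apply]
      refine Finset.sum_eq_zero fun v hv => ?_
      rw [LinearMap.smul_apply, low_zero, smul_zero]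
      rw [dg, Finset.sum_eq_zero_iff] at h
      exact h v hv
    · simp
  exact LinearMap.congr_fun h p

omit [Fintype V] in
lemma form_part (e : Finset V) (c : V → F) (j : ℕ) (p : MvPolynomial V F) :
    form e c * part e j p = part e (j + 1) (form e c * p) := by
  have h : (LinearMap.mulLeft F (form e c) ∘ₗ part e j)
      = (part e (j + 1) ∘ₗ LinearMap.mulLeft F (form e c)) := by
    apply lin_ext (F := F)
    intro α
    simp only [LinearMap.comp_apply, LinearMap.mulLeft_apply]
    rw [part_monomial, form, Finset.sum_mul, Finset.sum_mul, map_sum]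
    refine Finset.sum_congr rfl fun v hv => ?_
    rw [C_mul_X_eq_monomial, monomial_mul, part_monomial, dg_add, if_pos hv]
    by_cases h : dg e α = j
    · rw [if_pos h, if_pos (by omega), monomial_mul]
    · rw [if_neg h, if_neg (by omega), mul_zero]
  exact LinearMap.congr_fun h p

omit [Fintype V] in
lemma part_part (e : Finset V) (j : ℕ) (p : MvPolynomial V F) :
    part e j (part e j p) = part e j p := by
  have h : (part e j ∘ₗ part e j) = (part (F := F) e j) := by
    apply lin_ext (F := F)
    intro α
    simp only [LinearMap.comp_apply]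
    rw [part_monomial]
    split_ifs with h
    · rw [part_monomial, if_pos h]
    · simp
  exact LinearMap.congr_fun h p

omit [Fintype V] in
lemma part_mem (t : ℕ) (e : Finset V) (j : ℕ) (p : MvPolynomial V F)
    (hp : p ∈ powIdeal V F t) : part e j p ∈ powIdeal V F t := by
  refine ofMon_mem t _ ?_ p hp
  intro α hα
  split_ifs
  · exact monomial_mem t α 1 (Or.inr hα)
  · exact Ideal.zero_mem _

omit [Fintype V] in
lemma Low_form_part (N : ℕ) (e : Finset V) (c : V → F) (hc : ∀ v ∈ e, c v ≠ 0) (j : ℕ)
    (p : MvPolynomial V F) :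
    Low (N + 1) e c (form e c * part e j p) = form e c * Low (N + 1) e c (part e j p)
      + ((e.card : F) * N - 2 * j) • part e j p := by
  have h : (Low (N + 1) e c ∘ₗ LinearMap.mulLeft F (form e c) ∘ₗ part e j)
      = (LinearMap.mulLeft F (form e c) ∘ₗ Low (N + 1) e c ∘ₗ part e j)
        + ((e.card : F) * N - 2 * j) • part e j := by
    apply lin_ext (F := F)
    intro α
    simp only [LinearMap.comp_apply, LinearMap.mulLeft_apply, LinearMap.add_apply,
      LinearMap.smul_apply]
    rw [part_monomial]
    split_ifs with h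
    · rw [Low_form N e c hc, h]
    · simp
  exact LinearMap.congr_fun h p

omit [Fintype V] in
/-- Multiplication by the form is injective in low degree, modulo the ideal. -/
lemma inj_part [CharZero F] (N : ℕ) (e : Finset V) (c : V → F) (hc : ∀ v ∈ e, c v ≠ 0) (j : ℕ)
    (q : MvPolynomial V F) (hq : part e j q = q) (hj : 2 * j < e.card * N)
    (h : form e c * q ∈ powIdeal V F (N + 1)) : q ∈ powIdeal V F (N + 1) := by
  set J := powIdeal V F (N + 1) with hJ
  set G : ℕ → MvPolynomial V F := fun m => (Low (N + 1) e c)^[m] q with hG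
  have hG0 : G 0 = q := rfl
  have hGs : ∀ m, G (m + 1) = Low (N + 1) e c (G m) := fun m =>
    Function.iterate_succ_apply' _ _ _
  have h1 : ∀ m, m ≤ j → part e (j - m) (G m) = G m := by
    intro m
    induction m with
    | zero => intro _; exact hq
    | succ m ih =>
      intro hm
      have h2 := ih (by omega)
      rw [hGs, ← h2]
      have h3 : j - m = (j - (m + 1)) + 1 := by omega
      rw [h3]
      exact part_Low _ _ _ _ _
  have h2 : G (j + 1) = 0 := by
    rw [hGs, ← h1 j le_rfl, Nat.sub_self]
    exact Low_part_zero _ _ _ _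
  have hstep : ∀ m, m ≤ j → Low (N + 1) e c (form e c * G m)
      = form e c * G (m + 1) + ((e.card * N - 2 * (j - m) : ℕ) : F) • G m := by
    intro m hm
    have h3 := Low_form_part N e c hc (j - m) (G m)
    rw [h1 m hm] at h3
    have hle : 2 * (j - m) ≤ e.card * N := by omega
    rw [h3, hGs, Nat.cast_sub hle, Nat.cast_mul, Nat.cast_mul, Nat.cast_ofNat]
  have h3 : ∀ m, m ≤ j → ∃ s : ℕ, 0 < s ∧ form e c * G (m + 1) + (s : F) • G m ∈ J := by
    intro m
    induction m with
    | zero =>
      intro _
      refine ⟨e.card * N - 2 * (j - 0), by omega, ?_⟩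
      rw [← hstep 0 (by omega)]
      exact Low_mem _ _ _ _ h
    | succ m ih =>
      intro hm
      obtain ⟨s, hs, hmem⟩ := ih (by omega)
      refine ⟨e.card * N - 2 * (j - (m + 1)) + s, by omega, ?_⟩
      have h4 := Low_mem (N + 1) e c _ hmem
      rw [map_add, map_smul, hstep (m + 1) hm, ← hGs] at h4
      have h5 : form e c * G (m + 1 + 1) + ((e.card * N - 2 * (j - (m + 1)) + s : ℕ) : F)
          • G (m + 1) = form e c * G (m + 1 + 1)
          + ((e.card * N - 2 * (j - (m + 1)) : ℕ) : F) • G (m + 1) + (s : F) • G (m + 1) := by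
        rw [Nat.cast_add, add_smul, ← add_assoc]
      rw [h5]
      exact h4
  have h4 : ∀ i, i ≤ j + 1 → G (j + 1 - i) ∈ J := by
    intro i
    induction i with
    | zero => intro _; rw [Nat.sub_zero, h2]; exact Ideal.zero_mem _
    | succ i ih =>
      intro hi
      have h5 := ih (by omega)
      obtain ⟨s, hs, hmem⟩ := h3 (j + 1 - (i + 1)) (by omega)
      have h6 : j + 1 - (i + 1) + 1 = j + 1 - i := by omega
      rw [h6] at hmem
      have h7 : (s : F) • G (j + 1 - (i + 1)) ∈ J :=
        (Ideal.add_mem_iff_right _ (Ideal.mul_mem_left _ _ h5)).1 hmem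
      have h8 : G (j + 1 - (i + 1)) = (s : F)⁻¹ • ((s : F) • G (j + 1 - (i + 1))) := by
        rw [smul_smul, inv_mul_cancel₀, one_smul]
        exact_mod_cast hs.ne'
      rw [h8]
      exact Submodule.smul_of_tower_mem _ _ h7
  have h5 := h4 (j + 1) le_rfl
  rwa [Nat.sub_self] at h5

omit [Fintype V] in
lemma sum_part (e : Finset V) (K : ℕ) (q : MvPolynomial V F)
    (hq : ∀ α ∈ q.support, dg e α < K) : ∑ j ∈ Finset.range K, part e j q = q := by
  conv_rhs => rw [q.as_sum]
  have h1 : ∀ j ∈ Finset.range K, part e j q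
      = ∑ α ∈ q.support, part e j (monomial α (coeff α q)) := by
    intro j _
    conv_lhs => rw [q.as_sum, map_sum]
  rw [Finset.sum_congr rfl h1, Finset.sum_comm]
  refine Finset.sum_congr rfl fun α hα => ?_
  simp only [part_monomial]
  rw [Finset.sum_ite_eq, if_pos (Finset.mem_range.2 (hq α hα))]

omit [Fintype V] in
lemma inj_low [CharZero F] (N : ℕ) (e : Finset V) (c : V → F) (hc : ∀ v ∈ e, c v ≠ 0) (K : ℕ)
    (q : MvPolynomial V F) (hq : ∀ α ∈ q.support, dg e α < K)
    (hK : ∀ j < K, 2 * j < e.card * N)
    (h : form e c * q ∈ powIdeal V F (N + 1)) : q ∈ powIdeal V F (N + 1) := by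
  rw [← sum_part e K q hq]
  refine Ideal.sum_mem _ fun j hj => ?_
  refine inj_part N e c hc j _ (part_part e j q) (hK j (Finset.mem_range.1 hj)) ?_
  rw [form_part]
  exact part_mem _ _ _ _ h

omit [Fintype V] in
lemma form_support (e : Finset V) (c : V → F) (β : V →₀ ℕ) (hβ : β ∈ (form e c).support) :
    ∃ v ∈ e, β = Finsupp.single v 1 := by
  by_contra hcon
  push Not at hcon
  apply MvPolynomial.mem_support_iff.1 hβ
  rw [form, coeff_sum]
  refine Finset.sum_eq_zero fun v hv => ?_
  rw [C_mul_X_eq_monomial, coeff_monomial, if_neg]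
  exact fun h => hcon v hv h.symm

omit [Fintype V] in
lemma dg_form_mul (e d : Finset V) (c : V → F) (q : MvPolynomial V F) (K : ℕ)
    (hq : ∀ α ∈ q.support, dg e α ≤ K) (α : V →₀ ℕ) (hα : α ∈ (form d c * q).support) :
    dg e α ≤ K + (if Disjoint d e then 0 else 1) := by
  obtain ⟨β, hβ, γ, hγ, rfl⟩ := Finset.mem_add.1 (support_mul _ _ hα)
  obtain ⟨v, hv, rfl⟩ := form_support d c β hβ
  rw [dg_add]
  have h1 := hq γ hγ
  by_cases hd : Disjoint d e
  · have : v ∉ e := Finset.disjoint_left.1 hd hv
    simp [this, hd]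
    exact h1
  · rw [if_neg hd]
    split_ifs <;> omega

omit [Fintype V] in
lemma dg_prod {ι : Type} [DecidableEq ι] (e : Finset V) (d : ι → Finset V) (c : ι → V → F)
    (s : Finset ι) : ∀ α ∈ (∏ i ∈ s, form (d i) (c i)).support,
      dg e α ≤ (s.filter fun i => ¬ Disjoint (d i) e).card := by
  induction s using Finset.induction_on with
  | empty =>
    intro α hα
    rw [Finset.prod_empty, mem_support_iff, coeff_one] at hα
    have h0 : 0 = α := by
      by_contra h
      exact hα (if_neg h)
    subst h0
    simp [dg]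
  | insert a s ha ih =>
    intro α hα
    rw [Finset.prod_insert ha] at hα
    have h1 := dg_form_mul e (d a) (c a) _ _ ih α hα
    rw [Finset.filter_insert]
    by_cases hd : Disjoint (d a) e
    · simpa [hd] using h1
    · rw [if_neg hd] at h1
      rw [if_pos hd, Finset.card_insert_of_notMem]
      · exact h1
      · simp [ha]

omit [Fintype V] in
lemma prod_notMem [CharZero F] {ι : Type} [DecidableEq ι] (k : ℕ)
    (d : ι → Finset V) (c : ι → V → F) (hc : ∀ i, ∀ v ∈ d i, c i v ≠ 0)
    (r : ι → ℕ) (hr : Function.Injective r) (T : Finset ι)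
    (h : ∀ i ∈ T, (T.filter fun j => r j < r i ∧ ¬ Disjoint (d j) (d i)).card
      < k * (d i).card) (s : Finset ι) (hs : s ⊆ T) :
    ∏ i ∈ s, form (d i) (c i) ∉ powIdeal V F (2 * k + 1) := by
  induction s using Finset.induction_on_max_value r with
  | empty =>
    rw [Finset.prod_empty, mem_powIdeal]
    intro hcon
    obtain ⟨v, hv⟩ := hcon 0 (by simp)
    simp at hv
  | insert a s ha hmax ih =>
    intro hcon
    rw [Finset.prod_insert ha] at hcon
    apply ih (fun x hx => hs (Finset.mem_insert_of_mem hx))
    have haT : a ∈ T := hs (Finset.mem_insert_self a s)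
    refine inj_low (2 * k) (d a) (c a) (hc a) (k * (d a).card) _ ?_ ?_ hcon
    · intro α hα
      refine lt_of_le_of_lt (dg_prod (d a) d c s α hα) (lt_of_le_of_lt ?_ (h a haT))
      refine Finset.card_le_card fun j hj => ?_
      rw [Finset.mem_filter] at hj ⊢
      refine ⟨hs (Finset.mem_insert_of_mem hj.1), lt_of_le_of_ne (hmax j hj.1) ?_, hj.2⟩
      intro heq
      exact ha (hr heq ▸ hj.1)
    · intro j hj
      nlinarith

end operators

section main

variable {V ι : Type} [Fintype V] [DecidableEq V] [Fintype ι] {F : Type u} [Field F] [CharZero F]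

lemma alonTarsi_le (H : Hypergraph V ι) (a : ι → V → F) (k : ℕ)
    (h : H.poly a ∉ powIdeal V F (2 * k + 1)) : alonTarsi (H.poly a) ≤ 2 * k + 1 := by
  classical
  rw [mem_powIdeal] at h
  push Not at h
  obtain ⟨α, hα, hlt⟩ := h
  have hhom : (H.poly a).IsHomogeneous (∑ _i : ι, 1) := by
    refine IsHomogeneous.prod _ _ _ fun i _ => ?_
    refine IsHomogeneous.sum _ _ _ fun v _ => ?_
    simpa using (isHomogeneous_C V (a i v)).mul (isHomogeneous_X F v)
  have hne : H.poly a ≠ 0 := by
    intro h0
    rw [h0] at hα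
    simp at hα
  have hdeg := hhom.totalDegree hne
  have hmem : α ∈ topSupport (H.poly a) := by
    rw [topSupport, Finset.mem_filter]
    refine ⟨hα, ?_⟩
    rw [hdeg]
    have h1 := hhom (mem_support_iff.1 hα)
    rw [← h1]
    simp [Finsupp.weight_apply]
  refine le_trans (Nat.sInf_le ⟨α, hmem, rfl⟩) ?_
  have h2 : (Finset.univ.sup fun v => α v) ≤ 2 * k := by
    refine Finset.sup_le fun v _ => ?_
    have := hlt v
    omega
  omega

/-- Ordering criterion. -/
lemma ordering (H : Hypergraph V ι) (a : ι → V → F) (ha : H.IsCoeff a) (k : ℕ)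
    (r : ι → ℕ) (hr : Function.Injective r)
    (h : ∀ i, (Finset.univ.filter fun j => r j < r i ∧ ¬ Disjoint (H.edge j) (H.edge i)).card
      < k * (H.edge i).card) : alonTarsi (H.poly a) ≤ 2 * k + 1 := by
  classical
  apply alonTarsi_le
  have h1 := prod_notMem (F := F) k H.edge a ha r hr Finset.univ (fun i _ => by convert h i) Finset.univ
    (Finset.Subset.refl _)
  exact h1

/-- A rank function that sorts the edges by size. -/
lemma exists_rank (H : Hypergraph V ι) : ∃ r : ι → ℕ, Function.Injective r ∧
    ∀ i j, r j < r i → (H.edge j).card ≤ (H.edge i).card := by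
  classical
  set M := Fintype.card ι with hM
  set x : ι → ℕ := fun i => (Fintype.equivFin ι i).val with hx
  have hxM : ∀ i, x i < M := fun i => (Fintype.equivFin ι i).isLt
  have key : ∀ i j, (H.edge j).card * M + x j ≤ (H.edge i).card * M + x i →
      (H.edge j).card ≤ (H.edge i).card := by
    intro i j hij
    by_contra hcon
    push Not at hcon
    have h1 : ((H.edge i).card + 1) * M ≤ (H.edge j).card * M := Nat.mul_le_mul_right M hcon
    have h2 := hxM i
    nlinarith
  refine ⟨fun i => (H.edge i).card * M + x i, ?_, fun i j hij => key i j hij.le⟩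
  intro i j hij
  have hij' : (H.edge i).card * M + x i = (H.edge j).card * M + x j := hij
  have h1 := key i j hij'.ge
  have h2 := key j i hij'.le
  have h3 : (H.edge i).card = (H.edge j).card := le_antisymm h2 h1
  rw [h3] at hij'
  have h4 : x i = x j := by omega
  exact (Fintype.equivFin ι).injective (Fin.ext h4)

omit [DecidableEq V] in
lemma edgesIn_le [DecidableEq V] (H : Hypergraph V ι) (X : Finset V) (hX : X.Nonempty) :
    (H.edgesIn X).card ≤ ⌈H.edgeDensity⌉₊ * X.card := by
  have hpos : (0 : ℝ) < X.card := by exact_mod_cast hX.card_pos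
  have hbdd : BddAbove {x : ℝ | ∃ X : Finset V, X.Nonempty ∧
      x = ((H.edgesIn X).card : ℝ) / (X.card : ℝ)} := by
    refine ⟨Fintype.card ι, ?_⟩
    rintro x ⟨Y, hY, rfl⟩
    have h1 : (1 : ℝ) ≤ Y.card := by exact_mod_cast hY.card_pos
    have h2 : ((H.edgesIn Y).card : ℝ) ≤ Fintype.card ι := by
      exact_mod_cast Finset.card_le_univ _
    rw [div_le_iff₀ (by linarith)]
    nlinarith
  have h1 : ((H.edgesIn X).card : ℝ) / (X.card : ℝ) ≤ H.edgeDensity :=
    le_csSup hbdd ⟨X, hX, rfl⟩
  have h2 := h1.trans (Nat.le_ceil H.edgeDensity)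
  rw [div_le_iff₀ hpos] at h2
  exact_mod_cast h2

end main

open Classical in
/-- **The Alon-Tarsi number of hypergraph polynomials in characteristic zero.**
Let `F` be a field of characteristic `0` and `p` any hypergraph polynomial of `H` over `F`.
(1) If the edges can be ordered (by an injective rank `r`) so that every edge `e` meets fewer than
`k |e|` of the preceding edges, then `AT(p) ≤ 2 k + 1`.
(2) If for every `s` at most `k s` edges have size at most `s`, then `AT(p) ≤ 2 k + 1`.
(3) If any two edges are nested or disjoint, then `AT(p) ≤ 2 ⌈ed(H)⌉ + 1`. -/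
theorem result {V ι : Type} [Fintype V] [DecidableEq V] [Fintype ι] {F : Type u} [Field F]
    [CharZero F] (H : Hypergraph V ι) (a : ι → V → F) (ha : H.IsCoeff a) :
    (∀ (k : ℕ) (r : ι → ℕ), Function.Injective r →
      (∀ i, (Finset.univ.filter fun j => r j < r i ∧ ¬ Disjoint (H.edge j) (H.edge i)).card
        < k * (H.edge i).card) → alonTarsi (H.poly a) ≤ 2 * k + 1) ∧
    (∀ k : ℕ, (∀ s : ℕ, (Finset.univ.filter fun i => (H.edge i).card ≤ s).card ≤ k * s) →
      alonTarsi (H.poly a) ≤ 2 * k + 1) ∧
    ((∀ i j, H.edge i ⊆ H.edge j ∨ H.edge j ⊆ H.edge i ∨ Disjoint (H.edge i) (H.edge j)) →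
      alonTarsi (H.poly a) ≤ 2 * ⌈H.edgeDensity⌉₊ + 1) := by
  refine ⟨fun k r hr h => ordering H a ha k r hr (fun i => by convert h i), ?_, ?_⟩
  · intro k h
    obtain ⟨r, hr, hcard⟩ := exists_rank H
    refine ordering H a ha k r hr fun i => ?_
    refine lt_of_lt_of_le (Finset.card_lt_card (t := Finset.univ.filter fun j =>
      (H.edge j).card ≤ (H.edge i).card) ?_) (h (H.edge i).card)
    rw [Finset.ssubset_iff_of_subset]
    · exact ⟨i, by simp, by simp⟩
    · intro j hj
      rw [Finset.mem_filter] at hj ⊢
      exact ⟨hj.1, hcard i j hj.2.1⟩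
  · intro h
    obtain ⟨r, hr, hcard⟩ := exists_rank H
    refine ordering H a ha _ r hr fun i => ?_
    have hne : (H.edge i).Nonempty := by
      have := H.two_le i
      exact Finset.card_pos.1 (by omega)
    refine lt_of_lt_of_le (Finset.card_lt_card (t := H.edgesIn (H.edge i)) ?_)
      (edgesIn_le H _ hne)
    rw [Finset.ssubset_iff_of_subset]
    · refine ⟨i, ?_, by simp⟩
      rw [Hypergraph.edgesIn, Finset.mem_filter]
      exact ⟨Finset.mem_univ i, Finset.Subset.refl _⟩
    · intro j hj
      rw [Finset.mem_filter] at hj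
      rw [Hypergraph.edgesIn, Finset.mem_filter]
      refine ⟨Finset.mem_univ j, ?_⟩
      rcases h i j with h1 | h1 | h1
      · rw [Finset.eq_of_subset_of_card_le h1 (hcard i j hj.2.1)]
      · exact h1
      · exact absurd h1.symm hj.2.2

end Pool.Agent.Results.MP_3821a3_co.CharacteristicZero
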