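import Pool.Agent.Y366.HP.Simple

/-!
# Alon-Tarsi numbers of fully unbalanced polynomials of uniform hypergraphs

The bound `AT(p) ≤ 2 ⌈ed(H)⌉ + 1` of Q1 fails in every field of positive characteristic with at
least three elements already for `r`-uniform hypergraphs, for every `r ≥ 3`, by an arbitrary amount;
for `r ≥ 4` also for hypergraphs without repeated edges. Moreover the known upper bound
`AT(p) - 1 ≤ r ed(H)` for `r`-uniform hypergraphs, which implies the bound of Q1 if `r = 2`, is
attained for every `r ≥ 2` and arbitrarily large edge density. So in these fields the bound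
holds for all `r`-uniform hypergraphs if and only if `r = 2`.

The definitions (`Hypergraph`, `edgeDensity`, `poly`, `IsCoeff`, `FullyUnbalanced`, `alonTarsi`)
are those of the starting file `PositiveCharacteristic`, where the edges have unbounded size.
-/

set_option autoImplicit false

namespace Pool.Agent.Results.MP_3821a3_co.UniformHypergraphs

open Pool.Agent.Results.MP_3821a3_co.PositiveCharacteristic
open Pool.Agent.Y366.HP

universe u

theorem arith {x : ℝ} {q N : ℕ} (hx : x ≤ (q : ℝ) / 3) (hq : 3 * N + 6 < q) :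
    2 * ⌈x⌉₊ + 1 + N < q + 1 := by
  have h1 : (⌈x⌉₊ : ℝ) < (q : ℝ) / 3 + 1 := by
    rcases le_or_gt 0 x with h | h
    · exact (Nat.ceil_lt_add_one h).trans_le (by linarith)
    · rw [Nat.ceil_eq_zero.2 h.le]
      have : (0 : ℝ) ≤ q := by positivity
      push_cast
      linarith
  have h2 : (3 : ℝ) * N + 6 < q := by exact_mod_cast hq
  have h3 : (2 : ℝ) * ⌈x⌉₊ + 1 + N < q + 1 := by linarith
  exact_mod_cast h3

theorem exists_power {p : ℕ} (hp : p.Prime) (N : ℕ) : ∃ k : ℕ, 3 * N + 6 < p ^ k :=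
  ⟨3 * N + 6, (Nat.lt_two_pow_self).trans_le (Nat.pow_le_pow_left hp.two_le _)⟩

/-- Let `F` be a field of characteristic `p > 0` with at least three elements.
(1) For all `r ≥ 2` and `k` there are a hypergraph `H` all of whose edges have `r` elements, of edge
density `p ^ k / r`, and a fully unbalanced hypergraph polynomial of `H` with Alon-Tarsi number
`p ^ k + 1`, that is, `AT - 1 = r ed(H)`.
(2) For all `r ≥ 3` and `N` there are a hypergraph `H` all of whose edges have `r` elements and a
fully unbalanced hypergraph polynomial of `H` with `AT > 2 ⌈ed(H)⌉ + 1 + N`.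
(3) For `r ≥ 4` there are such hypergraphs without repeated edges. -/
theorem result (F : Type u) [Field F] (p : ℕ) (hp : p ≠ 0) [CharP F p]
    (hF : ∃ a : F, a ≠ 0 ∧ a ≠ 1) :
    (∀ r k : ℕ, 2 ≤ r → ∃ (V ι : Type) (_ : Fintype V) (_ : DecidableEq V) (_ : Fintype ι)
      (H : Hypergraph V ι) (a : ι → V → F),
      (∀ i, (H.edge i).card = r) ∧ H.IsCoeff a ∧ H.FullyUnbalanced a ∧
      H.edgeDensity = (p : ℝ) ^ k / r ∧ alonTarsi (H.poly a) = p ^ k + 1 ∧
      (alonTarsi (H.poly a) : ℝ) - 1 = r * H.edgeDensity) ∧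
    (∀ r N : ℕ, 3 ≤ r → ∃ (V ι : Type) (_ : Fintype V) (_ : DecidableEq V) (_ : Fintype ι)
      (H : Hypergraph V ι) (a : ι → V → F),
      (∀ i, (H.edge i).card = r) ∧ H.IsCoeff a ∧ H.FullyUnbalanced a ∧
      2 * ⌈H.edgeDensity⌉₊ + 1 + N < alonTarsi (H.poly a)) ∧
    (∀ r N : ℕ, 4 ≤ r → ∃ (V ι : Type) (_ : Fintype V) (_ : DecidableEq V) (_ : Fintype ι)
      (H : Hypergraph V ι) (a : ι → V → F),
      (∀ i, (H.edge i).card = r) ∧ Function.Injective H.edge ∧ H.IsCoeff a ∧
      H.FullyUnbalanced a ∧ 2 * ⌈H.edgeDensity⌉₊ + 1 + N < alonTarsi (H.poly a)) := by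
  obtain ⟨a0, ha0, ha1⟩ := hF
  haveI : Fact p.Prime := ⟨(CharP.char_is_prime_or_zero F p).resolve_right hp⟩
  have hpp : p.Prime := Fact.out
  have cdef : ∀ M : ℕ, ∀ v : Fin M, (if v.val = 0 then (1 : F) else a0) ≠ 0 := by
    intro M v
    split_ifs
    · exact one_ne_zero
    · exact ha0
  have part1 : ∀ r k : ℕ, ∀ hr : 2 ≤ r,
      (∀ i, ((full r (p ^ k) hr).edge i).card = r) ∧
      (full r (p ^ k) hr).IsCoeff (fun _ (v : Fin r) => (if v.val = 0 then (1 : F) else a0)) ∧
      (full r (p ^ k) hr).FullyUnbalanced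
        (fun _ (v : Fin r) => (if v.val = 0 then (1 : F) else a0)) ∧
      (full r (p ^ k) hr).edgeDensity = (p : ℝ) ^ k / r ∧
      alonTarsi ((full r (p ^ k) hr).poly
        (fun _ (v : Fin r) => (if v.val = 0 then (1 : F) else a0))) = p ^ k + 1 := by
    intro r k hr
    refine ⟨?_, fun _ v _ => cdef r v, ?_, ?_, ?_⟩
    · intro i
      simp [full]
    · intro i
      refine ⟨⟨0, by omega⟩, Finset.mem_univ _, ⟨1, by omega⟩, Finset.mem_univ _, ?_⟩
      simpa using ha1.symm
    · rw [full_density]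
      push_cast
      rfl
    · exact full_alonTarsi F p r k hr _ (cdef r)
  refine ⟨?_, ?_, ?_⟩
  · intro r k hr
    obtain ⟨h1, h2, h3, h4, h5⟩ := part1 r k hr
    refine ⟨_, _, inferInstance, inferInstance, inferInstance, full r (p ^ k) hr, _,
      h1, h2, h3, h4, h5, ?_⟩
    rw [h5, h4]
    have hr0 : (r : ℝ) ≠ 0 := by
      have : r ≠ 0 := by omega
      exact_mod_cast this
    push_cast
    field_simp
    ring
  · intro r N hr
    obtain ⟨k, hk⟩ := exists_power hpp N
    obtain ⟨h1, h2, h3, h4, h5⟩ := part1 r k (by omega)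
    refine ⟨_, _, inferInstance, inferInstance, inferInstance, full r (p ^ k) (by omega), _,
      h1, h2, h3, ?_⟩
    rw [h5]
    refine arith ?_ hk
    rw [h4]
    have hr3 : (3 : ℝ) ≤ r := by exact_mod_cast hr
    push_cast
    exact div_le_div_of_nonneg_left (by positivity) (by norm_num) hr3
  · intro r N hr
    obtain ⟨k, hk⟩ := exists_power hpp N
    obtain ⟨M, rfl⟩ : ∃ M, r = M + 1 := ⟨r - 1, by omega⟩
    have hM : 1 ≤ M := by omega
    set q := p ^ k with hq
    have hq1 : 1 ≤ q := by omega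
    refine ⟨_, _, inferInstance, inferInstance, inferInstance, bip (q ^ 2) q M hM,
      fun _ v => Sum.elim (fun x => (if x.2.val = 0 then (1 : F) else a0)) (fun _ => (1 : F)) v,
      bip_card _ _ _ _, bip_injective _ _ _ _, ?_, ?_, ?_⟩
    · rintro e v _
      rcases v with v | v
      · exact cdef M v.2
      · exact one_ne_zero
    · rintro ⟨i, j⟩
      refine ⟨Sum.inl (i, ⟨0, by omega⟩), by simp [bip], Sum.inl (i, ⟨1, by omega⟩),
        by simp [bip], ?_⟩
      simpa using ha1.symm
    · have h6 := bip_alonTarsi F p k M hM (fun v => if v.val = 0 then (1 : F) else a0) (cdef M)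
      refine lt_of_lt_of_le ?_ h6
      refine arith ?_ hk
      refine (bip_density (q ^ 2) q M hM hq1).trans ?_
      have hM3 : (3 : ℝ) ≤ M := by exact_mod_cast (by omega : 3 ≤ M)
      exact div_le_div_of_nonneg_left (by positivity) (by norm_num) hM3

end Pool.Agent.Results.MP_3821a3_co.UniformHypergraphs
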